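import Pool.Graph.R_seed8.H797R2.Hilbert.Transfer

/-!
Levin's constant in the two-parameter Hilbert inequality: the argument with explicit constants.
-/

set_option autoImplicit false
set_option linter.unusedSectionVars false

open MeasureTheory Set
open scoped ENNReal NNReal

namespace Pool.Agent.KS6_98.HilE

open Pool.Agent.H797R2.Hilbert

/-- The dichotomy with explicit constants. -/
theorem dichotomy_e (H : ℝ → ℝ≥0∞) (hH : Measurable H) (hH1 : ∫⁻ w, H w = 1) (hHb : ∀ w, H w ≤ 1)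
    (d η : ℝ) (hdp : 0 < d)
    (hg1 : ENNReal.ofReal d ≤ ∫⁻ w in Ioc (0 : ℝ) (1 / 32), H w)
    (hg2 : ENNReal.ofReal d ≤ ∫⁻ w in Ioc (-(1 / 32) : ℝ) 0, H w)
    (hη0 : 0 < η) (hη1 : η ≤ 1 / 256) (hη2 : η ≤ d ^ 2 / 16) :
    ∀ u v : ℝ → ℝ≥0∞, Measurable u → Measurable v →
      ∫⁻ s, u s = 1 → ∫⁻ t, v t = 1 →
      (∫⁻ s, u s * ∫⁻ t, (v t) ^ (1 / 2 : ℝ) * (H (s - t)) ^ (1 / 2 : ℝ) ≤
        ENNReal.ofReal (1 - η ^ 2)) ∨
      (∫⁻ t, v t * ∫⁻ s, (u s) ^ (1 / 2 : ℝ) * (H (s - t)) ^ (1 / 2 : ℝ) ≤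
        ENNReal.ofReal (1 - η ^ 2)) := by
  intro u v hu hv hu1 hv1
  by_cases hA1 : ∫⁻ s, u s * ∫⁻ t, (v t) ^ (1 / 2 : ℝ) * (H (s - t)) ^ (1 / 2 : ℝ)
      ≤ ENNReal.ofReal (1 - η ^ 2)
  · exact Or.inl hA1
  right
  set ρ : ℝ → ℝ≥0∞ := fun s => ∫⁻ t, (v t) ^ (1 / 2 : ℝ) * (H (s - t)) ^ (1 / 2 : ℝ) with hρ
  have hHs : ∀ s, Measurable fun t => H (s - t) := fun s => hH.comp (measurable_const.sub measurable_id)
  have hHs1 : ∀ s, ∫⁻ t, H (s - t) = 1 := fun s => by rw [lintegral_shift, hH1]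
  have hρm : Measurable ρ := by
    apply Measurable.lintegral_prod_right'
      (f := fun p : ℝ × ℝ => (v p.2) ^ (1 / 2 : ℝ) * (H (p.1 - p.2)) ^ (1 / 2 : ℝ))
    exact ((hv.comp measurable_snd).pow_const _).mul
      ((hH.comp (measurable_fst.sub measurable_snd)).pow_const _)
  have hρ1 : ∀ s, ρ s ≤ 1 := fun s => affinity_le_one _ _ _ hv (hHs s) hv1 (hHs1 s)
  set G : Set ℝ := {s | ENNReal.ofReal (1 - η) ≤ ρ s} with hG
  have hGm : MeasurableSet G := measurableSet_le measurable_const hρm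
  -- the mass of the complement
  have hsplit := lintegral_add_compl (μ := volume) u hGm
  rw [hu1] at hsplit
  have tG : (∫⁻ s in G, u s) ≠ ⊤ := by intro ht; rw [ht] at hsplit; simp at hsplit
  have tGc : (∫⁻ s in Gᶜ, u s) ≠ ⊤ := by intro ht; rw [ht] at hsplit; simp at hsplit
  have hsr : (∫⁻ s in G, u s).toReal + (∫⁻ s in Gᶜ, u s).toReal = 1 := by
    rw [← ENNReal.toReal_add tG tGc, hsplit, ENNReal.toReal_one]
  have hb : (∫⁻ s in Gᶜ, u s).toReal < η := by
    have h1 : ∫⁻ s, u s * ρ s ≤ (∫⁻ s in G, u s) + (∫⁻ s in Gᶜ, u s) * ENNReal.ofReal (1 - η) := by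
      rw [← lintegral_add_compl _ hGm]
      apply add_le_add
      · apply lintegral_mono
        intro s
        calc u s * ρ s ≤ u s * 1 := by gcongr; exact hρ1 s
          _ = u s := mul_one _
      · rw [← lintegral_mul_const _ hu]
        apply setLIntegral_mono' hGm.compl
        intro s hs
        gcongr
        have : ¬ (ENNReal.ofReal (1 - η) ≤ ρ s) := hs
        exact (not_le.1 this).le
    have h2 : ENNReal.ofReal (1 - η ^ 2) <
        (∫⁻ s in G, u s) + (∫⁻ s in Gᶜ, u s) * ENNReal.ofReal (1 - η) := by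
      refine lt_of_le_of_lt ?_ (lt_of_lt_of_le (not_le.1 hA1) h1)
      exact le_rfl
    have t3 : (∫⁻ s in Gᶜ, u s) * ENNReal.ofReal (1 - η) ≠ ⊤ :=
      ENNReal.mul_ne_top tGc ENNReal.ofReal_ne_top
    have h3 := (ENNReal.toReal_lt_toReal ENNReal.ofReal_ne_top
      (ENNReal.add_ne_top.2 ⟨tG, t3⟩)).2 h2
    rw [ENNReal.toReal_ofReal (by nlinarith), ENNReal.toReal_add tG t3, ENNReal.toReal_mul,
      ENNReal.toReal_ofReal (by linarith)] at h3
    by_contra hc
    rw [not_lt] at hc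
    nlinarith
  -- a good point
  have hGne : G.Nonempty := by
    by_contra hne
    rw [not_nonempty_iff_eq_empty] at hne
    rw [hne] at hsr
    simp only [Measure.restrict_empty, lintegral_zero_measure, ENNReal.toReal_zero, zero_add] at hsr
    rw [hne] at hb
    linarith
  obtain ⟨s₀, hs₀⟩ := hGne
  -- the distribution function
  have hQ : ∀ s, ∫⁻ t in Iio s₀, H (s - t) = ∫⁻ w in Ioi (s - s₀), H w := by
    intro s
    rw [← lintegral_indicator measurableSet_Iio, ← lintegral_indicator measurableSet_Ioi,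
      ← lintegral_shift ((Ioi (s - s₀)).indicator H) s]
    apply lintegral_congr
    intro t
    simp only [indicator, mem_Iio, mem_Ioi]
    by_cases h : t < s₀
    · rw [if_pos h, if_pos (by linarith)]
    · rw [if_neg h, if_neg (by linarith)]
  have hQtop : ∀ S : Set ℝ, ∫⁻ w in S, H w ≠ ⊤ := fun S =>
    ne_top_of_le_ne_top ENNReal.one_ne_top (by rw [← hH1]; exact setLIntegral_le_lintegral _ _)
  have hclose : ∀ s ∈ G, |s - s₀| ≤ 1 / 32 := by
    intro s hs
    by_contra hc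
    rw [not_le] at hc
    have e1 := event_close volume v (fun t => H (s - t)) hv (hHs s) hv1 (hHs1 s) (Iio s₀)
      measurableSet_Iio hη0.le (by linarith) hs
    have e2 := event_close volume v (fun t => H (s₀ - t)) hv (hHs s₀) hv1 (hHs1 s₀) (Iio s₀)
      measurableSet_Iio hη0.le (by linarith) hs₀
    rw [hQ] at e1 e2
    rw [sub_self] at e2
    set P := (∫⁻ x in Iio s₀, v x).toReal
    have hdiff : d ≤ |(∫⁻ w in Ioi (s - s₀), H w).toReal - (∫⁻ w in Ioi (0 : ℝ), H w).toReal| := by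
      rcases lt_abs.1 hc with h | h
      · -- s ≥ s₀ + 1/32
        have h1 : (∫⁻ w in Ioi (s - s₀), H w) + ∫⁻ w in Ioc (0 : ℝ) (1 / 32), H w
            ≤ ∫⁻ w in Ioi (0 : ℝ), H w := by
          rw [← lintegral_union measurableSet_Ioc]
          · apply lintegral_mono_set
            rintro x (hx | hx)
            · rw [mem_Ioi] at *; linarith
            · exact hx.1
          · rw [Set.disjoint_left]
            intro x hx hx2
            rw [mem_Ioi] at hx
            linarith [hx2.2]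
        have h2 := ENNReal.toReal_mono (hQtop _) h1
        rw [ENNReal.toReal_add (hQtop _) (hQtop _)] at h2
        have h3 : d ≤ (∫⁻ w in Ioc (0 : ℝ) (1 / 32), H w).toReal :=
          (ENNReal.ofReal_le_iff_le_toReal (hQtop _)).1 hg1
        rw [abs_sub_comm]
        refine le_trans ?_ (le_abs_self _)
        linarith
      · have h1 : (∫⁻ w in Ioi (0 : ℝ), H w) + ∫⁻ w in Ioc (-(1 / 32) : ℝ) 0, H w
            ≤ ∫⁻ w in Ioi (s - s₀), H w := by
          rw [← lintegral_union measurableSet_Ioc]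
          · apply lintegral_mono_set
            rintro x (hx | hx)
            · rw [mem_Ioi] at *; linarith
            · rw [mem_Ioi]; linarith [hx.1]
          · rw [Set.disjoint_left]
            intro x hx hx2
            rw [mem_Ioi] at hx
            linarith [hx2.2]
        have h2 := ENNReal.toReal_mono (hQtop _) h1
        rw [ENNReal.toReal_add (hQtop _) (hQtop _)] at h2
        have h3 : d ≤ (∫⁻ w in Ioc (-(1 / 32) : ℝ) 0, H w).toReal :=
          (ENNReal.ofReal_le_iff_le_toReal (hQtop _)).1 hg2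
        refine le_trans ?_ (le_abs_self _)
        linarith
    have h5 : d ^ 2 ≤ 8 * η := by
      have h6 : d ^ 2 ≤ ((∫⁻ w in Ioi (s - s₀), H w).toReal - (∫⁻ w in Ioi (0 : ℝ), H w).toReal) ^ 2 := by
        rw [← sq_abs ((∫⁻ w in Ioi (s - s₀), H w).toReal - _)]
        exact pow_le_pow_left₀ hdp.le hdiff 2
      nlinarith [sq_nonneg ((P - (∫⁻ w in Ioi (s - s₀), H w).toReal) + (P - (∫⁻ w in Ioi (0:ℝ), H w).toReal))]
    nlinarith [sq_pos_of_pos hdp]
  -- concentration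
  set J : Set ℝ := Icc (s₀ - 1 / 32) (s₀ + 1 / 32) with hJ
  have hJc : ∫⁻ s in Jᶜ, u s ≤ ENNReal.ofReal η := by
    calc ∫⁻ s in Jᶜ, u s ≤ ∫⁻ s in Gᶜ, u s := by
          apply lintegral_mono_set
          apply compl_subset_compl.2
          intro s hs
          have := abs_le.1 (hclose s hs)
          exact ⟨by linarith [this.1], by linarith [this.2]⟩
      _ = ENNReal.ofReal (∫⁻ s in Gᶜ, u s).toReal := (ENNReal.ofReal_toReal tGc).symm
      _ ≤ ENNReal.ofReal η := ENNReal.ofReal_le_ofReal hb.le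
  have hσ : ∀ t, ∫⁻ s, (u s) ^ (1 / 2 : ℝ) * (H (s - t)) ^ (1 / 2 : ℝ) ≤ ENNReal.ofReal (1 / 2) := by
    intro t
    have hHt : Measurable fun s => H (s - t) := hH.comp (measurable_id.sub measurable_const)
    have hHt1 : ∫⁻ s, H (s - t) = 1 := by
      rw [lintegral_sub_right_eq_self H t, hH1]
    refine (affinity_split volume u (fun s => H (s - t)) hu hHt J measurableSet_Icc).trans ?_
    have a1 : ∫⁻ s in J, u s ≤ 1 := by rw [← hu1]; exact setLIntegral_le_lintegral _ _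
    have a2 : ∫⁻ s in J, H (s - t) ≤ ENNReal.ofReal (1 / 16) := by
      calc ∫⁻ s in J, H (s - t) ≤ ∫⁻ _ in J, 1 := lintegral_mono fun s => hHb _
        _ = volume J := by simp
        _ = ENNReal.ofReal (1 / 16) := by
            rw [hJ, Real.volume_Icc]; congr 1; ring
    have a3 : ∫⁻ s in Jᶜ, H (s - t) ≤ 1 := by
      rw [← hHt1]; exact setLIntegral_le_lintegral _ _
    have b1 : (ENNReal.ofReal (1 / 16)) ^ (1 / 2 : ℝ) = ENNReal.ofReal (1 / 4) := by
      rw [ENNReal.ofReal_rpow_of_nonneg (by norm_num) (by norm_num)]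
      congr 1
      rw [show (1 / 16 : ℝ) = (1 / 4) ^ (2 : ℝ) by norm_num, ← Real.rpow_mul (by norm_num)]
      norm_num
    have b2 : (ENNReal.ofReal (1 / 256)) ^ (1 / 2 : ℝ) = ENNReal.ofReal (1 / 16) := by
      rw [ENNReal.ofReal_rpow_of_nonneg (by norm_num) (by norm_num)]
      congr 1
      rw [show (1 / 256 : ℝ) = (1 / 16) ^ (2 : ℝ) by norm_num, ← Real.rpow_mul (by norm_num)]
      norm_num
    calc _ ≤ (1 : ℝ≥0∞) ^ (1 / 2 : ℝ) * (ENNReal.ofReal (1 / 16)) ^ (1 / 2 : ℝ) +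
          (ENNReal.ofReal (1 / 256)) ^ (1 / 2 : ℝ) * 1 ^ (1 / 2 : ℝ) := by
          have a4 := hJc.trans (ENNReal.ofReal_le_ofReal hη1)
          gcongr
      _ = ENNReal.ofReal (1 / 4) + ENNReal.ofReal (1 / 16) := by
          rw [b1, b2]; simp
      _ = ENNReal.ofReal (1 / 4 + 1 / 16) := (ENNReal.ofReal_add (by norm_num) (by norm_num)).symm
      _ ≤ ENNReal.ofReal (1 / 2) := ENNReal.ofReal_le_ofReal (by norm_num)
  calc ∫⁻ t, v t * ∫⁻ s, (u s) ^ (1 / 2 : ℝ) * (H (s - t)) ^ (1 / 2 : ℝ)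
      ≤ ∫⁻ t, v t * ENNReal.ofReal (1 / 2) := by
        apply lintegral_mono
        intro t
        exact mul_le_mul' le_rfl (hσ t)
    _ = ENNReal.ofReal (1 / 2) := by rw [lintegral_mul_const _ hv, hv1, one_mul]
    _ ≤ _ := ENNReal.ofReal_le_ofReal (by nlinarith)


section
variable {p q : ℝ} (hp : 1 < p) (hq : 1 < q) (hpq : 1 < 1 / p + 1 / q)
include hp hq hpq

/-- The normalized inequality with an explicit constant. -/
theorem normalized_e (κ : ℝ) (hκ0 : 0 < κ) (hκ1 : κ < 1)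
    (hκ : ∀ u v : ℝ → ℝ≥0∞, Measurable u → Measurable v → ∫⁻ s, u s = 1 → ∫⁻ t, v t = 1 →
      (∫⁻ s, u s * ∫⁻ t, (v t) ^ (1 / 2 : ℝ) *
        (ENNReal.ofReal (hh (th p q) (s - t))) ^ (1 / 2 : ℝ) ≤ ENNReal.ofReal κ) ∨
      (∫⁻ t, v t * ∫⁻ s, (u s) ^ (1 / 2 : ℝ) *
        (ENNReal.ofReal (hh (th p q) (s - t))) ^ (1 / 2 : ℝ) ≤ ENNReal.ofReal κ)) :
    ∀ u v : ℝ → ℝ≥0∞, Measurable u → Measurable v →
    ∫⁻ s, u s = 1 → ∫⁻ t, v t = 1 →
    ∫⁻ s, ∫⁻ t, (u s) ^ (1 / p) * (v t) ^ (1 / q) * (ENNReal.ofReal (hh (th p q) (s - t))) ^ (lam p q)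
      ≤ ENNReal.ofReal (max (κ ^ (2 * min (1 - lam p q) (1 - 1 / q)))
        (κ ^ (2 * min (1 - lam p q) (1 - 1 / p)))) := by
  obtain ⟨i1, i2, i3, i4⟩ := inv_facts hp hq hpq
  have hl0 := lam_pos hp hq hpq
  have hl1 := lam_lt hp hq hpq
  have ht0 := th_pos hp hq hpq
  have ht1 := th_lt hp hq hpq
  set θ := th p q with hθ
  set H : ℝ → ℝ≥0∞ := fun w => ENNReal.ofReal (hh θ w) with hH
  have hHm : Measurable H := (hh_cont θ).measurable.ennreal_ofReal
  set a := 1 - lam p q with ha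
  set b := 1 - 1 / q with hb
  set c := 1 - 1 / p with hc
  have ha0 : 0 < a := by linarith
  have hb0 : 0 < b := by linarith
  have hc0 : 0 < c := by linarith
  have hbc : b + c = lam p q := by rw [hb, hc]; unfold lam; ring
  have habc : a + b + c = 1 := by linarith
  have hacb : a + c + b = 1 := by linarith
  have hm1 : 0 < 2 * min a b := by have := lt_min ha0 hb0; linarith
  have hm2 : 0 < 2 * min a c := by have := lt_min ha0 hc0; linarith
  intro u v hu hv hu1 hv1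
  set α : ℝ × ℝ → ℝ≥0∞ := fun z => u z.1 * v z.2 with hα
  set β : ℝ × ℝ → ℝ≥0∞ := fun z => u z.1 * H (z.1 - z.2) with hβ
  set γ : ℝ × ℝ → ℝ≥0∞ := fun z => v z.2 * H (z.1 - z.2) with hγ
  have hdiff : Measurable fun z : ℝ × ℝ => H (z.1 - z.2) := hHm.comp (measurable_fst.sub measurable_snd)
  have mα : Measurable α := (hu.comp measurable_fst).mul (hv.comp measurable_snd)
  have mβ : Measurable β := (hu.comp measurable_fst).mul hdiff
  have mγ : Measurable γ := (hv.comp measurable_snd).mul hdiff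
  have hH1 : ∫⁻ w, H w = 1 := lintegral_hh ht0 ht1
  have mHs : ∀ s : ℝ, Measurable fun t => H (s - t) := fun s =>
    hHm.comp (measurable_const.sub measurable_id)
  have mHt : ∀ t : ℝ, Measurable fun s => H (s - t) := fun t =>
    hHm.comp (measurable_id.sub measurable_const)
  have hs1 : ∀ s, ∫⁻ t, H (s - t) = 1 := fun s => by rw [lintegral_shift, hH1]
  have ht1' : ∀ t, ∫⁻ s, H (s - t) = 1 := fun t => by
    rw [lintegral_sub_right_eq_self H t, hH1]
  have iα : ∫⁻ z, α z ∂(volume.prod volume) = 1 := by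
    rw [hα, lintegral_prod_mul hu.aemeasurable hv.aemeasurable, hu1, hv1, one_mul]
  have iβ : ∫⁻ z, β z ∂(volume.prod volume) = 1 := by
    rw [lintegral_prod _ mβ.aemeasurable]
    have : ∀ s, ∫⁻ t, β (s, t) = u s := by
      intro s
      rw [hβ]
      simp only
      rw [lintegral_const_mul _ (mHs s), hs1, mul_one]
    simp only [this, hu1]
  have iγ : ∫⁻ z, γ z ∂(volume.prod volume) = 1 := by
    rw [lintegral_prod_symm _ mγ.aemeasurable]
    have : ∀ t, ∫⁻ s, γ (s, t) = v t := by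
      intro t
      rw [hγ]
      simp only
      rw [lintegral_const_mul _ (mHt t), ht1', mul_one]
    simp only [this, hv1]
  have hint : ∫⁻ s, ∫⁻ t, (u s) ^ (1 / p) * (v t) ^ (1 / q) * (H (s - t)) ^ (lam p q)
      = ∫⁻ z, (α z) ^ a * (β z) ^ b * (γ z) ^ c ∂(volume.prod volume) := by
    have mm : Measurable fun z => (α z) ^ a * (β z) ^ b * (γ z) ^ c :=
      ((mα.pow_const _).mul (mβ.pow_const _)).mul (mγ.pow_const _)
    rw [lintegral_prod _ mm.aemeasurable]
    apply lintegral_congr; intro s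
    apply lintegral_congr; intro t
    simp only [hα, hβ, hγ]
    rw [ENNReal.mul_rpow_of_nonneg _ _ ha0.le, ENNReal.mul_rpow_of_nonneg _ _ hb0.le,
      ENNReal.mul_rpow_of_nonneg _ _ hc0.le]
    have e1 : (u s) ^ (1 / p) = (u s) ^ a * (u s) ^ b := by
      rw [← ENNReal.rpow_add_of_nonneg _ _ ha0.le hb0.le]; congr 1; linarith
    have e2 : (v t) ^ (1 / q) = (v t) ^ a * (v t) ^ c := by
      rw [← ENNReal.rpow_add_of_nonneg _ _ ha0.le hc0.le]; congr 1; linarith
    have e3 : (H (s - t)) ^ (lam p q) = (H (s - t)) ^ b * (H (s - t)) ^ c := by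
      rw [← ENNReal.rpow_add_of_nonneg _ _ hb0.le hc0.le, hbc]
    rw [e1, e2, e3]; ring
  change ∫⁻ s, ∫⁻ t, (u s) ^ (1 / p) * (v t) ^ (1 / q) * (H (s - t)) ^ (lam p q) ≤ _
  rw [hint]
  rcases hκ u v hu hv hu1 hv1 with h | h
  · have h1 := holder_gain (volume.prod volume) α β γ mα mβ mγ iα iβ iγ a b c ha0.le hb0.le hc0.le habc
    refine h1.trans ?_
    have h2 : ∫⁻ z, (α z) ^ (1 / 2 : ℝ) * (β z) ^ (1 / 2 : ℝ) ∂(volume.prod volume)
        = ∫⁻ s, u s * ∫⁻ t, (v t) ^ (1 / 2 : ℝ) * (H (s - t)) ^ (1 / 2 : ℝ) := by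
      have mm : Measurable fun z => (α z) ^ (1 / 2 : ℝ) * (β z) ^ (1 / 2 : ℝ) :=
        (mα.pow_const _).mul (mβ.pow_const _)
      rw [lintegral_prod _ mm.aemeasurable]
      apply lintegral_congr; intro s
      have mm2 : Measurable fun t => (v t) ^ (1 / 2 : ℝ) * (H (s - t)) ^ (1 / 2 : ℝ) :=
        (hv.pow_const _).mul ((mHs s).pow_const _)
      rw [← lintegral_const_mul _ mm2]
      apply lintegral_congr; intro t
      simp only [hα, hβ]
      rw [ENNReal.mul_rpow_of_nonneg _ _ (by norm_num), ENNReal.mul_rpow_of_nonneg _ _ (by norm_num)]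
      conv_rhs => rw [← half_add_half (x := u s)]
      ring
    rw [h2]
    calc _ ≤ (ENNReal.ofReal κ) ^ (2 * min a b) := by gcongr
      _ = ENNReal.ofReal (κ ^ (2 * min a b)) := ENNReal.ofReal_rpow_of_nonneg hκ0.le hm1.le
      _ ≤ _ := ENNReal.ofReal_le_ofReal (le_max_left _ _)
  · have h0 : ∫⁻ z, (α z) ^ a * (β z) ^ b * (γ z) ^ c ∂(volume.prod volume)
        = ∫⁻ z, (α z) ^ a * (γ z) ^ c * (β z) ^ b ∂(volume.prod volume) := by
      apply lintegral_congr; intro z; ring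
    rw [h0]
    have h1 := holder_gain (volume.prod volume) α γ β mα mγ mβ iα iγ iβ a c b ha0.le hc0.le hb0.le hacb
    refine h1.trans ?_
    have h2 : ∫⁻ z, (α z) ^ (1 / 2 : ℝ) * (γ z) ^ (1 / 2 : ℝ) ∂(volume.prod volume)
        = ∫⁻ t, v t * ∫⁻ s, (u s) ^ (1 / 2 : ℝ) * (H (s - t)) ^ (1 / 2 : ℝ) := by
      have mm : Measurable fun z => (α z) ^ (1 / 2 : ℝ) * (γ z) ^ (1 / 2 : ℝ) :=
        (mα.pow_const _).mul (mγ.pow_const _)
      rw [lintegral_prod_symm _ mm.aemeasurable]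
      apply lintegral_congr; intro t
      have mm2 : Measurable fun s => (u s) ^ (1 / 2 : ℝ) * (H (s - t)) ^ (1 / 2 : ℝ) :=
        (hu.pow_const _).mul ((mHt t).pow_const _)
      rw [← lintegral_const_mul _ mm2]
      apply lintegral_congr; intro s
      simp only [hα, hγ]
      rw [ENNReal.mul_rpow_of_nonneg _ _ (by norm_num), ENNReal.mul_rpow_of_nonneg _ _ (by norm_num)]
      conv_rhs => rw [← half_add_half (x := v t)]
      ring
    rw [h2]
    calc _ ≤ (ENNReal.ofReal κ) ^ (2 * min a c) := by gcongr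
      _ = ENNReal.ofReal (κ ^ (2 * min a c)) := ENNReal.ofReal_rpow_of_nonneg hκ0.le hm2.le
      _ ≤ _ := ENNReal.ofReal_le_ofReal (le_max_right _ _)

/-- The inequality on the line, from the normalized inequality. -/
theorem line_e (κ : ℝ) (hκ0 : 0 < κ)
    (hκ : ∀ u v : ℝ → ℝ≥0∞, Measurable u → Measurable v → ∫⁻ s, u s = 1 → ∫⁻ t, v t = 1 →
      ∫⁻ s, ∫⁻ t, (u s) ^ (1 / p) * (v t) ^ (1 / q) *
        (ENNReal.ofReal (hh (th p q) (s - t))) ^ (lam p q) ≤ ENNReal.ofReal κ) :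
    ∀ F G : ℝ → ℝ≥0∞, Measurable F → Measurable G →
    ∫⁻ s, ∫⁻ t, F s * G t * (ENNReal.ofReal (hh (th p q) (s - t))) ^ (lam p q)
      ≤ ENNReal.ofReal κ * (∫⁻ s, F s ^ p) ^ (1 / p) * (∫⁻ t, G t ^ q) ^ (1 / q) := by
  obtain ⟨i1, i2, i3, i4⟩ := inv_facts hp hq hpq
  have hp0 : 0 < p := by linarith
  have hq0 : 0 < q := by linarith
  intro F G hF hG
  set A := ∫⁻ s, F s ^ p with hA
  set B := ∫⁻ t, G t ^ q with hB
  have hFz : A = 0 → ∀ᵐ s, F s = 0 := by
    intro h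
    rw [hA, lintegral_eq_zero_iff (hF.pow_const _)] at h
    filter_upwards [h] with s hs
    simpa [ENNReal.rpow_eq_zero_iff, hp0, hp0.not_gt] using hs
  have hGz : B = 0 → ∀ᵐ t, G t = 0 := by
    intro h
    rw [hB, lintegral_eq_zero_iff (hG.pow_const _)] at h
    filter_upwards [h] with s hs
    simpa [ENNReal.rpow_eq_zero_iff, hq0, hq0.not_gt] using hs
  by_cases hA0 : A = 0
  · have : ∫⁻ s, ∫⁻ t, F s * G t * (ENNReal.ofReal (hh (th p q) (s - t))) ^ (lam p q) = 0 := by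
      rw [← lintegral_zero (α := ℝ) (μ := volume)]
      apply lintegral_congr_ae
      filter_upwards [hFz hA0] with s hs
      simp [hs]
    rw [this]; exact zero_le
  by_cases hB0 : B = 0
  · have : ∫⁻ s, ∫⁻ t, F s * G t * (ENNReal.ofReal (hh (th p q) (s - t))) ^ (lam p q) = 0 := by
      rw [← lintegral_zero (α := ℝ) (μ := volume)]
      apply lintegral_congr
      intro s
      rw [← lintegral_zero (α := ℝ) (μ := volume)]
      apply lintegral_congr_ae
      filter_upwards [hGz hB0] with t ht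
      simp [ht]
    rw [this]; exact zero_le
  have hκne : ENNReal.ofReal κ ≠ 0 := (ENNReal.ofReal_pos.2 hκ0).ne'
  by_cases hAt : A = ⊤
  · rw [hAt, ENNReal.top_rpow_of_pos i1, ENNReal.mul_top hκne, ENNReal.top_mul]
    · exact le_top
    · exact (ENNReal.rpow_pos_of_nonneg (pos_iff_ne_zero.2 hB0) i3.le).ne'
  by_cases hBt : B = ⊤
  · rw [hBt, ENNReal.top_rpow_of_pos i3, ENNReal.mul_top]
    · exact le_top
    · exact mul_ne_zero hκne (ENNReal.rpow_pos_of_nonneg (pos_iff_ne_zero.2 hA0) i1.le).ne'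
  -- normalization
  set u : ℝ → ℝ≥0∞ := fun s => A⁻¹ * F s ^ p with hu
  set v : ℝ → ℝ≥0∞ := fun t => B⁻¹ * G t ^ q with hv
  have hum : Measurable u := (hF.pow_const _).const_mul _
  have hvm : Measurable v := (hG.pow_const _).const_mul _
  have hu1 : ∫⁻ s, u s = 1 := by
    rw [hu, lintegral_const_mul _ (hF.pow_const _), ← hA, ENNReal.inv_mul_cancel hA0 hAt]
  have hv1 : ∫⁻ t, v t = 1 := by
    rw [hv, lintegral_const_mul _ (hG.pow_const _), ← hB, ENNReal.inv_mul_cancel hB0 hBt]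
  have hFu : ∀ s, F s = A ^ (1 / p) * (u s) ^ (1 / p) := by
    intro s
    rw [← ENNReal.mul_rpow_of_nonneg _ _ i1.le, hu]
    simp only
    rw [← mul_assoc, ENNReal.mul_inv_cancel hA0 hAt, one_mul, ← ENNReal.rpow_mul,
      mul_one_div_cancel hp0.ne', ENNReal.rpow_one]
  have hGv : ∀ t, G t = B ^ (1 / q) * (v t) ^ (1 / q) := by
    intro t
    rw [← ENNReal.mul_rpow_of_nonneg _ _ i3.le, hv]
    simp only
    rw [← mul_assoc, ENNReal.mul_inv_cancel hB0 hBt, one_mul, ← ENNReal.rpow_mul,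
      mul_one_div_cancel hq0.ne', ENNReal.rpow_one]
  have hAf : A ^ (1 / p) ≠ ⊤ := ENNReal.rpow_ne_top_of_nonneg i1.le hAt
  have hBf : B ^ (1 / q) ≠ ⊤ := ENNReal.rpow_ne_top_of_nonneg i3.le hBt
  calc ∫⁻ s, ∫⁻ t, F s * G t * (ENNReal.ofReal (hh (th p q) (s - t))) ^ (lam p q)
      = ∫⁻ s, (A ^ (1 / p) * B ^ (1 / q)) * ∫⁻ t, (u s) ^ (1 / p) * (v t) ^ (1 / q) *
          (ENNReal.ofReal (hh (th p q) (s - t))) ^ (lam p q) := by
        apply lintegral_congr; intro s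
        rw [← lintegral_const_mul' _ _ (ENNReal.mul_ne_top hAf hBf)]
        apply lintegral_congr; intro t
        rw [hFu s, hGv t]; ring
    _ = (A ^ (1 / p) * B ^ (1 / q)) * ∫⁻ s, ∫⁻ t, (u s) ^ (1 / p) * (v t) ^ (1 / q) *
          (ENNReal.ofReal (hh (th p q) (s - t))) ^ (lam p q) :=
        lintegral_const_mul' _ _ (ENNReal.mul_ne_top hAf hBf)
    _ ≤ (A ^ (1 / p) * B ^ (1 / q)) * ENNReal.ofReal κ := by
        gcongr
        exact hκ u v hum hvm hu1 hv1
    _ = _ := by ring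

/-- The integral inequality, from the inequality on the line. -/
theorem integral_e (κ : ℝ)
    (hκ : ∀ F G : ℝ → ℝ≥0∞, Measurable F → Measurable G →
      ∫⁻ s, ∫⁻ t, F s * G t * (ENNReal.ofReal (hh (th p q) (s - t))) ^ (lam p q)
        ≤ ENNReal.ofReal κ * (∫⁻ s, F s ^ p) ^ (1 / p) * (∫⁻ t, G t ^ q) ^ (1 / q)) :
    ∀ f g : ℝ → ℝ≥0∞, Measurable f → Measurable g →
    ∫⁻ x in Ioi (0 : ℝ), ∫⁻ y in Ioi (0 : ℝ), f x * g y * ENNReal.ofReal ((x + y) ^ (-(lam p q)))
      ≤ ENNReal.ofReal (KK p q * κ) * (∫⁻ x in Ioi (0 : ℝ), f x ^ p) ^ (1 / p) *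
        (∫⁻ y in Ioi (0 : ℝ), g y ^ q) ^ (1 / q) := by
  have hK := KK_pos hp hq hpq
  have hl := lam_pos hp hq hpq
  have h0 := th_pos hp hq hpq
  have h1 := th_lt hp hq hpq
  intro f g hf hg
  have hp0 : 0 < p := by linarith
  have hq0 : 0 < q := by linarith
  set F : ℝ → ℝ≥0∞ := fun s => ENNReal.ofReal (Real.exp (s / p)) * f (Real.exp s) with hF
  set G : ℝ → ℝ≥0∞ := fun t => ENNReal.ofReal (Real.exp (t / q)) * g (Real.exp t) with hG
  have mF : Measurable F :=
    (Real.measurable_exp.comp (measurable_id.div_const p)).ennreal_ofReal.mul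
      (hf.comp Real.measurable_exp)
  have mG : Measurable G :=
    (Real.measurable_exp.comp (measurable_id.div_const q)).ennreal_ofReal.mul
      (hg.comp Real.measurable_exp)
  have hFp : ∫⁻ x in Ioi (0 : ℝ), f x ^ p = ∫⁻ s, F s ^ p := by
    rw [change_var]
    apply lintegral_congr; intro s
    rw [hF]; simp only
    rw [ENNReal.mul_rpow_of_nonneg _ _ hp0.le, ENNReal.ofReal_rpow_of_nonneg (Real.exp_pos _).le hp0.le,
      ← Real.exp_mul, div_mul_cancel₀ _ hp0.ne']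
  have hGq : ∫⁻ y in Ioi (0 : ℝ), g y ^ q = ∫⁻ t, G t ^ q := by
    rw [change_var]
    apply lintegral_congr; intro s
    rw [hG]; simp only
    rw [ENNReal.mul_rpow_of_nonneg _ _ hq0.le, ENNReal.ofReal_rpow_of_nonneg (Real.exp_pos _).le hq0.le,
      ← Real.exp_mul, div_mul_cancel₀ _ hq0.ne']
  have hL : ∫⁻ x in Ioi (0 : ℝ), ∫⁻ y in Ioi (0 : ℝ), f x * g y * ENNReal.ofReal ((x + y) ^ (-(lam p q)))
      = ENNReal.ofReal (KK p q) *
        ∫⁻ s, ∫⁻ t, F s * G t * (ENNReal.ofReal (hh (th p q) (s - t))) ^ (lam p q) := by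
    rw [change_var, ← lintegral_const_mul' _ _ ENNReal.ofReal_ne_top]
    apply lintegral_congr; intro s
    rw [change_var, ← lintegral_const_mul' _ _ ENNReal.ofReal_ne_top,
      ← lintegral_const_mul' _ _ ENNReal.ofReal_ne_top]
    apply lintegral_congr; intro t
    have hk := kernel_eq hp hq hpq s t
    have hhp := hh_pos h0 h1 (s - t)
    have e1 : ENNReal.ofReal (Real.exp s) * ENNReal.ofReal (Real.exp t) *
        ENNReal.ofReal ((Real.exp s + Real.exp t) ^ (-(lam p q)))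
        = ENNReal.ofReal (Real.exp (s / p)) * ENNReal.ofReal (Real.exp (t / q)) *
          (ENNReal.ofReal (KK p q) * (ENNReal.ofReal (hh (th p q) (s - t))) ^ (lam p q)) := by
      rw [ENNReal.ofReal_rpow_of_nonneg hhp.le hl.le, ← ENNReal.ofReal_mul hK.le,
        ← ENNReal.ofReal_mul (Real.exp_pos _).le, ← ENNReal.ofReal_mul (Real.exp_pos _).le,
        ← ENNReal.ofReal_mul (by positivity), ← ENNReal.ofReal_mul (by positivity), hk]
    rw [hF, hG]; simp only
    calc ENNReal.ofReal (Real.exp s) * (ENNReal.ofReal (Real.exp t) * (f (Real.exp s) * g (Real.exp t) *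
          ENNReal.ofReal ((Real.exp s + Real.exp t) ^ (-(lam p q)))))
        = f (Real.exp s) * g (Real.exp t) * (ENNReal.ofReal (Real.exp s) * ENNReal.ofReal (Real.exp t) *
          ENNReal.ofReal ((Real.exp s + Real.exp t) ^ (-(lam p q)))) := by ring
      _ = _ := by rw [e1]; ring
  rw [hL, hFp, hGq, ENNReal.ofReal_mul hK.le, mul_assoc, mul_assoc]
  gcongr
  rw [← mul_assoc]
  exact hκ F G mF mG

/-- Both inequalities, from the integral inequality for extended functions. -/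
theorem both_e (C : ℝ)
    (hC : ∀ f g : ℝ → ℝ≥0∞, Measurable f → Measurable g →
      ∫⁻ x in Ioi (0 : ℝ), ∫⁻ y in Ioi (0 : ℝ), f x * g y * ENNReal.ofReal ((x + y) ^ (-(lam p q)))
        ≤ ENNReal.ofReal C * (∫⁻ x in Ioi (0 : ℝ), f x ^ p) ^ (1 / p) *
          (∫⁻ y in Ioi (0 : ℝ), g y ^ q) ^ (1 / q)) :
    SeriesIneq p q C ∧ IntegralIneq p q C := by
  have hl := lam_pos hp hq hpq
  refine ⟨?_, ?_⟩
  · intro a b
    set f : ℝ → ℝ≥0∞ := fun x => (a (⌈x⌉₊ - 1) : ℝ≥0∞) with hf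
    set g : ℝ → ℝ≥0∞ := fun x => (b (⌈x⌉₊ - 1) : ℝ≥0∞) with hg
    have mf : Measurable f := (measurable_from_top (f := fun n : ℕ => (a (n - 1) : ℝ≥0∞))).comp
      Nat.measurable_ceil
    have mg : Measurable g := (measurable_from_top (f := fun n : ℕ => (b (n - 1) : ℝ≥0∞))).comp
      Nat.measurable_ceil
    have hfp : ∀ (r : ℝ) (c : ℕ → ℝ≥0), ∫⁻ x in Ioi (0 : ℝ), (c (⌈x⌉₊ - 1) : ℝ≥0∞) ^ r
        = ∑' m : ℕ, (c m : ℝ≥0∞) ^ r := by
      intro r c
      rw [lintegral_steps hp hq hpq]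
      congr 1
      funext m
      have : ∫⁻ x in Ioc (m : ℝ) (m + 1), (c (⌈x⌉₊ - 1) : ℝ≥0∞) ^ r
          = ∫⁻ _ in Ioc (m : ℝ) (m + 1), (c m : ℝ≥0∞) ^ r := by
        apply setLIntegral_congr_fun measurableSet_Ioc
        intro x hx
        simp only
        rw [ceil_step hp hq hpq hx]
      rw [this]
      simp
    have h := hC f g mf mg
    rw [hf, hg] at h
    simp only at h
    rw [hfp p a, hfp q b] at h
    refine le_trans ?_ h
    rw [lintegral_steps hp hq hpq]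
    apply ENNReal.tsum_le_tsum
    intro m
    have hm : ∀ x ∈ Ioc (m : ℝ) (m + 1), ∑' n : ℕ, (a m : ℝ≥0∞) * (b n : ℝ≥0∞) *
        ENNReal.ofReal ((((m : ℝ) + 1) + ((n : ℝ) + 1)) ^ (-(lam p q))) ≤
        ∫⁻ y in Ioi (0 : ℝ), (a (⌈x⌉₊ - 1) : ℝ≥0∞) * (b (⌈y⌉₊ - 1) : ℝ≥0∞) *
          ENNReal.ofReal ((x + y) ^ (-(lam p q))) := by
      intro x hx
      rw [lintegral_steps hp hq hpq, ceil_step hp hq hpq hx]
      apply ENNReal.tsum_le_tsum
      intro n
      calc (a m : ℝ≥0∞) * (b n : ℝ≥0∞) *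
            ENNReal.ofReal ((((m : ℝ) + 1) + ((n : ℝ) + 1)) ^ (-(lam p q)))
          = ∫⁻ _ in Ioc (n : ℝ) (n + 1), (a m : ℝ≥0∞) * (b n : ℝ≥0∞) *
            ENNReal.ofReal ((((m : ℝ) + 1) + ((n : ℝ) + 1)) ^ (-(lam p q))) := by simp
        _ ≤ _ := by
            apply setLIntegral_mono' measurableSet_Ioc
            intro y hy
            rw [ceil_step hp hq hpq hy]
            apply mul_le_mul' le_rfl
            apply ENNReal.ofReal_le_ofReal
            have hm0 : (0 : ℝ) ≤ m := Nat.cast_nonneg m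
            have hn0 : (0 : ℝ) ≤ n := Nat.cast_nonneg n
            apply Real.rpow_le_rpow_of_nonpos
            · linarith [hx.1, hy.1]
            · linarith [hx.2, hy.2]
            · linarith
    calc ∑' n : ℕ, (a m : ℝ≥0∞) * (b n : ℝ≥0∞) *
          ENNReal.ofReal ((((m : ℝ) + 1) + ((n : ℝ) + 1)) ^ (-(lam p q)))
        = ∫⁻ _ in Ioc (m : ℝ) (m + 1), ∑' n : ℕ, (a m : ℝ≥0∞) * (b n : ℝ≥0∞) *
          ENNReal.ofReal ((((m : ℝ) + 1) + ((n : ℝ) + 1)) ^ (-(lam p q))) := by simp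
      _ ≤ _ := setLIntegral_mono' measurableSet_Ioc hm
  · intro f g hf hg
    exact hC (fun x => f x) (fun x => g x) hf.coe_nnreal_ennreal hg.coe_nnreal_ennreal

end

end Pool.Agent.KS6_98.HilE
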