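import Pool.Agent.KS6_98.HilE.Base

/-!
Levin's constant in the two-parameter Hilbert inequality: an explicit smaller constant.
-/

set_option autoImplicit false
set_option linter.unusedSectionVars false

open MeasureTheory Set
open scoped ENNReal NNReal

namespace Pool.Agent.KS6_98.HilE

open Pool.Agent.H797R2.Hilbert

/-- lower bound for the density near the origin -/
theorem hh_ge {θ : ℝ} (h0 : 0 < θ) (h1 : θ < 1) {w : ℝ} (hw : |w| ≤ 1 / 32) :
    Real.sin (Real.pi * θ) / (4 * Real.pi) ≤ hh θ w := by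
  have hs := sin_pos h0 h1
  have hpi := Real.pi_pos
  have hw' := abs_le.1 hw
  have h2 : (1 : ℝ) / 4 ≤ Real.exp (θ * w) / (1 + Real.exp w) := by
    rw [le_div_iff₀ (by positivity)]
    have e1 : θ * w + 1 ≤ Real.exp (θ * w) := Real.add_one_le_exp _
    have e2 : -(1 / 32) ≤ θ * w := by nlinarith
    have e3 : Real.exp w ≤ Real.exp 1 := Real.exp_le_exp.2 (by linarith)
    have e4 := Real.exp_one_lt_d9
    linarith
  unfold hh
  have e5 : Real.sin (Real.pi * θ) / (4 * Real.pi) = Real.sin (Real.pi * θ) / Real.pi * (1 / 4) := by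
    field_simp
  rw [e5]
  exact mul_le_mul_of_nonneg_left h2 (by positivity)

/-- the mass of the density on short intervals -/
theorem gap {θ : ℝ} (h0 : 0 < θ) (h1 : θ < 1) (a b : ℝ) (hab : b - a = 1 / 32)
    (ha : -(1 / 32) ≤ a) (hb : b ≤ 1 / 32) :
    ENNReal.ofReal (Real.sin (Real.pi * θ) / (128 * Real.pi)) ≤
      ∫⁻ w in Ioc a b, ENNReal.ofReal (hh θ w) := by
  have hs := sin_pos h0 h1
  have hpi := Real.pi_pos
  calc ENNReal.ofReal (Real.sin (Real.pi * θ) / (128 * Real.pi))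
      = ENNReal.ofReal (Real.sin (Real.pi * θ) / (4 * Real.pi)) * ENNReal.ofReal (1 / 32) := by
        rw [← ENNReal.ofReal_mul (by positivity)]
        congr 1
        field_simp
        norm_num
    _ = ∫⁻ _ in Ioc a b, ENNReal.ofReal (Real.sin (Real.pi * θ) / (4 * Real.pi)) := by
        rw [setLIntegral_const, Real.volume_Ioc, hab]
    _ ≤ ∫⁻ w in Ioc a b, ENNReal.ofReal (hh θ w) := by
        apply setLIntegral_mono' measurableSet_Ioc
        intro w hw
        apply ENNReal.ofReal_le_ofReal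
        apply hh_ge h0 h1
        rw [abs_le]
        exact ⟨by linarith [hw.1], by linarith [hw.2]⟩

section
variable {p q : ℝ} (hp : 1 < p) (hq : 1 < q) (hpq : 1 < 1 / p + 1 / q)
include hp hq hpq

/-- the sine in Levin's constant -/
theorem sin_eq : Real.sin (Real.pi * (q - 1) / (lam p q * q)) = Real.sin (Real.pi * th p q) := by
  have hl := lam_pos hp hq hpq
  have e1 : Real.pi * (q - 1) / (lam p q * q) = Real.pi - Real.pi * th p q := by
    unfold th
    have hq0 : q ≠ 0 := by linarith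
    have hp0 : p ≠ 0 := by linarith
    field_simp
    unfold lam
    field_simp
    ring
  rw [e1, Real.sin_pi_sub]

/-- both inequalities with an explicit constant -/
theorem both_explicit (κ : ℝ)
    (hκ : κ = 1 - (Real.sin (Real.pi * (q - 1) / (lam p q * q)) ^ 2 / 3000000) ^ 2) (m : ℝ)
    (hm : m = min (1 / p + 1 / q - 1) (min (1 - 1 / p) (1 - 1 / q))) :
    0 < κ ∧ κ < 1 ∧ 0 < m ∧ 0 < KK p q ∧
    SeriesIneq p q (KK p q * κ ^ (2 * m)) ∧ IntegralIneq p q (KK p q * κ ^ (2 * m)) := by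
  obtain ⟨i1, i2, i3, i4⟩ := inv_facts hp hq hpq
  have h0 := th_pos hp hq hpq
  have h1 := th_lt hp hq hpq
  have hs := sin_pos h0 h1
  have hs1 := Real.sin_le_one (Real.pi * th p q)
  have hpi := Real.pi_pos
  rw [sin_eq hp hq hpq] at hκ
  set σ := Real.sin (Real.pi * th p q) with hσ
  obtain ⟨η, hη⟩ : ∃ η : ℝ, η = σ ^ 2 / 3000000 := ⟨_, rfl⟩
  rw [← hη] at hκ
  have hσ2 : σ ^ 2 ≤ 1 := by nlinarith
  have hη0 : 0 < η := by rw [hη]; positivity
  have hη1 : η ≤ 1 / 256 := by rw [hη]; linarith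
  have hη2 : η ≤ (σ / (128 * Real.pi)) ^ 2 / 16 := by
    have e1 : (σ / (128 * Real.pi)) ^ 2 / 16 = σ ^ 2 / (262144 * Real.pi ^ 2) := by
      field_simp
      norm_num
    rw [hη, e1]
    apply div_le_div_of_nonneg_left (by positivity) (by positivity)
    have := Real.pi_lt_d2
    nlinarith
  have hκ0 : 0 < κ := by rw [hκ]; nlinarith
  have hκ1 : κ < 1 := by rw [hκ]; nlinarith
  have hm0 : 0 < m := by
    rw [hm]
    exact lt_min (by linarith) (lt_min (by linarith) (by linarith))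
  have hKK := KK_pos hp hq hpq
  have hdich := dichotomy_e (fun w => ENNReal.ofReal (hh (th p q) w))
    (hh_cont (th p q)).measurable.ennreal_ofReal (lintegral_hh h0 h1)
    (fun w => by
      rw [← ENNReal.ofReal_one]
      exact ENNReal.ofReal_le_ofReal (hh_le_one h0 h1 w))
    (σ / (128 * Real.pi)) η (by positivity)
    (gap h0 h1 0 (1 / 32) (by norm_num) (by norm_num) (by norm_num))
    (gap h0 h1 (-(1 / 32)) 0 (by norm_num) (by norm_num) (by norm_num)) hη0 hη1 hη2
  rw [← hκ] at hdich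
  have hnorm := normalized_e hp hq hpq κ hκ0 hκ1 hdich
  have hlam : 1 - lam p q = 1 / p + 1 / q - 1 := by unfold lam; ring
  have hle : max (κ ^ (2 * min (1 - lam p q) (1 - 1 / q)))
      (κ ^ (2 * min (1 - lam p q) (1 - 1 / p))) ≤ κ ^ (2 * m) := by
    apply max_le
    · apply Real.rpow_le_rpow_of_exponent_ge hκ0 hκ1.le
      have : m ≤ min (1 - lam p q) (1 - 1 / q) := by
        rw [hm, hlam]
        exact le_min (min_le_left _ _) ((min_le_right _ _).trans (min_le_right _ _))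
      linarith
    · apply Real.rpow_le_rpow_of_exponent_ge hκ0 hκ1.le
      have : m ≤ min (1 - lam p q) (1 - 1 / p) := by
        rw [hm, hlam]
        exact le_min (min_le_left _ _) ((min_le_right _ _).trans (min_le_left _ _))
      linarith
  have hκm : 0 < κ ^ (2 * m) := Real.rpow_pos_of_pos hκ0 _
  have hline := line_e hp hq hpq (κ ^ (2 * m)) hκm (fun u v hu hv hu1 hv1 =>
    (hnorm u v hu hv hu1 hv1).trans (ENNReal.ofReal_le_ofReal hle))
  have hint := integral_e hp hq hpq (κ ^ (2 * m)) hline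
  have hboth := both_e hp hq hpq (KK p q * κ ^ (2 * m)) hint
  exact ⟨hκ0, hκ1, hm0, hKK, hboth.1, hboth.2⟩

/-- both inequalities with an explicit constant, simplified -/
theorem both_simple (δ : ℝ)
    (hδ : δ = 2 * min (1 / p + 1 / q - 1) (min (1 - 1 / p) (1 - 1 / q)) *
      Real.sin (Real.pi * (q - 1) / (lam p q * q)) ^ 4 / (9 * 10 ^ 12)) :
    0 < δ ∧ δ < 1 ∧ 0 < KK p q ∧
    SeriesIneq p q ((1 - δ) * KK p q) ∧ IntegralIneq p q ((1 - δ) * KK p q) := by
  obtain ⟨κ, hκ⟩ : ∃ κ : ℝ, κ = 1 - (Real.sin (Real.pi * (q - 1) / (lam p q * q)) ^ 2 /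
    3000000) ^ 2 := ⟨_, rfl⟩
  obtain ⟨m, hm⟩ : ∃ m : ℝ, m = min (1 / p + 1 / q - 1) (min (1 - 1 / p) (1 - 1 / q)) := ⟨_, rfl⟩
  obtain ⟨hκ0, hκ1, hm0, hKK, hS, hI⟩ := both_explicit hp hq hpq κ hκ m hm
  have hm1 : m ≤ 1 / 3 := by
    have h1 : m ≤ 1 / p + 1 / q - 1 := hm ▸ min_le_left _ _
    have h2 : m ≤ 1 - 1 / p := hm ▸ (min_le_right _ _).trans (min_le_left _ _)
    have h3 : m ≤ 1 - 1 / q := hm ▸ (min_le_right _ _).trans (min_le_right _ _)
    linarith
  have hδ' : δ = 2 * m * (1 - κ) := by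
    rw [hδ, hκ, ← hm]
    ring
  have hδ0 : 0 < δ := by
    rw [hδ']
    have : 0 < 1 - κ := by linarith
    positivity
  have hδ1 : δ < 1 := by
    rw [hδ']
    nlinarith
  have hb : κ ^ (2 * m) ≤ 1 - δ := by
    have h1 := rpow_one_add_le_one_add_mul_self (s := κ - 1) (by linarith) (p := 2 * m)
      (by linarith) (by linarith)
    have h2 : 1 + (κ - 1) = κ := by ring
    rw [h2] at h1
    refine h1.trans (le_of_eq ?_)
    rw [hδ']
    ring
  have hC : KK p q * κ ^ (2 * m) ≤ (1 - δ) * KK p q := by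
    rw [mul_comm]
    exact mul_le_mul_of_nonneg_right hb hKK.le
  have hC' := ENNReal.ofReal_le_ofReal hC
  refine ⟨hδ0, hδ1, hKK, ?_, ?_⟩
  · intro a b
    refine (hS a b).trans ?_
    gcongr
  · intro f g hf hg
    refine (hI f g hf hg).trans ?_
    gcongr

end

/-- the case `p = q = 4/3` -/
theorem four_thirds : KK (4 / 3) (4 / 3) = √Real.pi ∧
    SeriesIneq (4 / 3) (4 / 3) ((1 - 1 / (18 * 10 ^ 12)) * √Real.pi) ∧
    IntegralIneq (4 / 3) (4 / 3) ((1 - 1 / (18 * 10 ^ 12)) * √Real.pi) := by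
  have hlam : lam (4 / 3) (4 / 3) = 1 / 2 := by unfold lam; norm_num
  have harg : Real.pi * ((4 / 3 : ℝ) - 1) / (lam (4 / 3) (4 / 3) * (4 / 3)) = Real.pi / 2 := by
    rw [hlam]; ring
  have hK : KK (4 / 3) (4 / 3) = √Real.pi := by
    unfold KK
    rw [harg, Real.sin_pi_div_two, hlam, Real.sqrt_eq_rpow]
    norm_num
  obtain ⟨-, -, -, hS, hI⟩ := both_simple (p := 4 / 3) (q := 4 / 3) (by norm_num) (by norm_num)
    (by norm_num) (1 / (18 * 10 ^ 12)) (by
      rw [harg, Real.sin_pi_div_two]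
      have h1 : min (1 / (4 / 3) + 1 / (4 / 3) - 1 : ℝ) (min (1 - 1 / (4 / 3)) (1 - 1 / (4 / 3)))
          = 1 / 4 := by norm_num
      rw [h1]
      norm_num)
  rw [hK] at hS hI
  exact ⟨hK, hS, hI⟩

end Pool.Agent.KS6_98.HilE
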